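import Pool.Agent.helper55.VDI.SpecB1
import Pool.Agent.helper72.VD.AHLD

/-!
# Row `vdi:LPA`: nearby coefficients
-/

set_option autoImplicit false

open scoped ContDiff Topology InnerProductSpace ComplexConjugate ENNReal
open MeasureTheory Filter Set

namespace Pool.Agent.VDI

open Pool.Agent.VD
open Pool.Agent.VQ (CH KZ PS perZ cmZ)
open Pool.Agent.RPQ (IsOp)
open Pool.Agent.VDA (STP FB FR FT nY OY OA)
open Pool.Agent.VDE (FDX)

noncomputable section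

/-- the compact set of operators is convex -/
lemma LPA_convex (d : ℕ) (b : ℝ) : Convex ℝ (AHLD_K d b) := by
  intro A hA A' hA' s t hs ht hst
  refine ⟨?_, fun u => ?_, fun u v => ?_⟩
  · calc ‖s • A + t • A'‖ ≤ ‖s • A‖ + ‖t • A'‖ := norm_add_le _ _
      _ = s * ‖A‖ + t * ‖A'‖ := by rw [norm_smul, norm_smul, Real.norm_of_nonneg hs, Real.norm_of_nonneg ht]
      _ ≤ s * b + t * b := add_le_add (mul_le_mul_of_nonneg_left hA.1 hs) (mul_le_mul_of_nonneg_left hA'.1 ht)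
      _ = b := by rw [← add_mul, hst, one_mul]
  · have h1 := mul_le_mul_of_nonneg_left (hA.2.1 u) hs
    have h2 := mul_le_mul_of_nonneg_left (hA'.2.1 u) ht
    have h3 : ⟪(s • A + t • A') u, u⟫_ℝ = s * ⟪A u, u⟫_ℝ + t * ⟪A' u, u⟫_ℝ := by
      rw [show (s • A + t • A') u = s • A u + t • A' u from rfl, inner_add_left, real_inner_smul_left, real_inner_smul_left]
    rw [h3]
    have h4 : ‖u‖ ^ 2 = s * ‖u‖ ^ 2 + t * ‖u‖ ^ 2 := by rw [← add_mul, hst, one_mul]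
    rw [h4]
    linarith
  · rw [show (s • A + t • A') u = s • A u + t • A' u from rfl, show (s • A + t • A') v = s • A v + t • A' v from rfl,
      inner_add_left, inner_add_right, real_inner_smul_left, real_inner_smul_left, real_inner_smul_right, real_inner_smul_right,
      hA.2.2 u v, hA'.2.2 u v]

/-- smooth functions are bounded and Lipschitz on the compact convex set -/
lemma LPA_lip {X : Type} [NormedAddCommGroup X] [NormedSpace ℝ X] {d : ℕ} {b : ℝ} (F : (V d →L[ℝ] V d) → X)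
    (hF : ∀ A ∈ AHLD_K d b, ContDiffAt ℝ ∞ F A) : ∃ C : ℝ, 0 ≤ C ∧ (∀ A ∈ AHLD_K d b, ‖F A‖ ≤ C) ∧
      ∀ A ∈ AHLD_K d b, ∀ A' ∈ AHLD_K d b, ‖F A - F A'‖ ≤ C * ‖A - A'‖ := by
  obtain ⟨C1, hC1⟩ := (AHLD_K_compact d b).exists_bound_of_continuousOn (f := F)
    (fun A hA => (hF A hA).continuousAt.continuousWithinAt)
  obtain ⟨C2, hC2⟩ := (AHLD_K_compact d b).exists_bound_of_continuousOn (f := fderiv ℝ F)
    (fun A hA => (((hF A hA).fderiv_right (m := 0) (by norm_num)).continuousAt).continuousWithinAt)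
  refine ⟨max 0 (max C1 C2), le_max_left _ _, fun A hA => (hC1 A hA).trans ((le_max_left _ _).trans (le_max_right _ _)), ?_⟩
  intro A hA A' hA'
  exact (LPA_convex d b).norm_image_sub_le_of_norm_fderiv_le (𝕜 := ℝ)
    (fun A hA => (hF A hA).differentiableAt (by norm_num))
    (fun A hA => (hC2 A hA).trans ((le_max_right _ _).trans (le_max_right _ _))) hA' hA

lemma LPA_one {d : ℕ} {b : ℝ} {A : V d →L[ℝ] V d} (hA : A ∈ AHLD_K d b) :
    ContDiffAt ℝ ∞ (fun B : V d →L[ℝ] V d => Real.sqrt B.det) A :=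
  (EHB_det d).contDiffAt.sqrt (ne_of_gt (AHLD_KU d b hA))

lemma LPA_two {d : ℕ} {b : ℝ} {A : V d →L[ℝ] V d} (hA : A ∈ AHLD_K d b) :
    ContDiffAt ℝ ∞ (ContinuousLinearMap.inverse : (V d →L[ℝ] V d) → (V d →L[ℝ] V d)) A := by
  have hpos : ∀ u, u ≠ 0 → 0 < ⟪A u, u⟫_ℝ := by
    intro u hu
    have h1 := hA.2.1 u
    have h2 : 0 < ‖u‖ ^ 2 := by positivity
    have h3 : 0 ≤ b := le_trans (norm_nonneg _) hA.1
    by_contra h4
    have h5 : b * ⟪A u, u⟫_ℝ ≤ 0 := mul_nonpos_of_nonneg_of_nonpos h3 (not_lt.mp h4)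
    linarith
  obtain ⟨e, he⟩ := EHD_equiv d A hpos
  rw [← he]
  exact contDiffAt_map_inverse e

theorem LPA_proof : LPA_stmt := by
  intro d Γ _ _ K k B b r
  obtain ⟨m, hm⟩ : ∃ m : ℕ, r ≤ m := exists_nat_ge r
  obtain ⟨M, hM⟩ : ∃ M : ℝ, M = max 1 (B m 0) := ⟨_, rfl⟩
  have hM0 : B m 0 ≤ M := by rw [hM]; exact le_max_right _ _
  obtain ⟨C1, h1a, h1b, h1c⟩ := LPA_lip (d := d) (b := M) (fun A : V d →L[ℝ] V d => Real.sqrt A.det) (fun A hA => LPA_one hA)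
  obtain ⟨C2, h2a, h2b, h2c⟩ := LPA_lip (d := d) (b := M) (ContinuousLinearMap.inverse : (V d →L[ℝ] V d) → (V d →L[ℝ] V d))
    (fun A hA => LPA_two hA)
  obtain ⟨F3, hF3⟩ : ∃ F3 : (V d →L[ℝ] V d) → (V d →L[ℝ] V d), F3 = fun A => Real.sqrt A.det • A.inverse := ⟨_, rfl⟩
  have h3 : ∀ A ∈ AHLD_K d M, ContDiffAt ℝ ∞ F3 A := by
    intro A hA
    rw [hF3]
    exact (LPA_one hA).smul (LPA_two hA)
  obtain ⟨C3, h3a, h3b, h3c⟩ := LPA_lip (d := d) (b := M) F3 h3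
  obtain ⟨C4, h4a, h4b, h4c⟩ := LPA_lip (d := d) (b := M) (fderiv ℝ F3)
    (fun A hA => (h3 A hA).fderiv_right (m := ∞) (by norm_num))
  obtain ⟨D, hD⟩ : ∃ D : ℝ, D = |b m| := ⟨_, rfl⟩
  obtain ⟨M1, hM1⟩ : ∃ M1 : ℝ, M1 = |B m 1| := ⟨_, rfl⟩
  have hD0 : 0 ≤ D := by rw [hD]; exact abs_nonneg _
  have hM10 : 0 ≤ M1 := by rw [hM1]; exact abs_nonneg _
  refine ⟨1 + (C1 + C2 + C3 + (C4 * M1 + C4)) * D, ?_, ?_⟩
  · have : 0 ≤ (C1 + C2 + C3 + (C4 * M1 + C4)) * D := by positivity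
    linarith
  intro R G G' x hR hG hNr hx
  have hxm : ‖x‖ ≤ m := hx.trans hm
  have hR0 : 0 < R ^ (-LX d) := Real.rpow_pos_of_pos (by linarith) _
  have hmem : ∀ H : V d → V d →L[ℝ] V d, Cls Γ K k B H → H x ∈ AHLD_K d M := by
    intro H hH
    refine ⟨?_, fun u => ?_, hH.met.symm x⟩
    · have h5 := hH.bd m 0 x hxm
      rw [norm_iteratedFDeriv_zero] at h5
      exact h5.trans hM0
    · have h5 := hH.lo m x u hxm
      have h6 : 0 ≤ ⟪H x u, u⟫_ℝ := by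
        by_cases hu : u = 0
        · rw [hu, inner_zero_right]
        · exact (hH.met.pos x u hu).le
      exact h5.trans (mul_le_mul_of_nonneg_right hM0 h6)
  have m1 := hmem G hG
  have m2 := hmem G' hNr.cls
  have hDR : b m * R ^ (-LX d) ≤ D * R ^ (-LX d) := mul_le_mul_of_nonneg_right (by rw [hD]; exact le_abs_self _) hR0.le
  have dif : DifferentiableAt ℝ G x := hG.met.smooth.contDiffAt.differentiableAt (by norm_num)
  have dif' : DifferentiableAt ℝ G' x := hNr.cls.met.smooth.contDiffAt.differentiableAt (by norm_num)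
  have n0 : ‖G x - G' x‖ ≤ D * R ^ (-LX d) := by
    have h5 := hNr.cl m 0 x (by norm_num) hxm
    rw [norm_iteratedFDeriv_zero] at h5
    exact h5.trans hDR
  have n1 : ‖fderiv ℝ G x - fderiv ℝ G' x‖ ≤ D * R ^ (-LX d) := by
    have h5 := hNr.cl m 1 x (by norm_num) hxm
    rw [norm_iteratedFDeriv_one, fderiv_fun_sub dif dif'] at h5
    exact h5.trans hDR
  have bG : ‖fderiv ℝ G x‖ ≤ M1 := by
    have h5 := hG.bd m 1 x hxm
    rw [norm_iteratedFDeriv_one] at h5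
    exact h5.trans (by rw [hM1]; exact le_abs_self _)
  have fin : ∀ (X c : ℝ), 0 ≤ c → c ≤ C1 + C2 + C3 + (C4 * M1 + C4) → X ≤ c * (D * R ^ (-LX d)) →
      X ≤ (1 + (C1 + C2 + C3 + (C4 * M1 + C4)) * D) * R ^ (-LX d) := by
    intro X c hc hc2 hX
    have h5 : c * (D * R ^ (-LX d)) ≤ (C1 + C2 + C3 + (C4 * M1 + C4)) * (D * R ^ (-LX d)) :=
      mul_le_mul_of_nonneg_right hc2 (by positivity)
    have h6 : (1 + (C1 + C2 + C3 + (C4 * M1 + C4)) * D) * R ^ (-LX d) =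
        R ^ (-LX d) + (C1 + C2 + C3 + (C4 * M1 + C4)) * (D * R ^ (-LX d)) := by ring
    linarith
  have hCM : 0 ≤ C4 * M1 := by positivity
  refine ⟨?_, ?_, ?_, ?_⟩
  · refine fin _ C1 h1a (by linarith) ?_
    exact (h1c _ m1 _ m2).trans (mul_le_mul_of_nonneg_left n0 h1a)
  · refine fin _ C2 h2a (by linarith) ?_
    exact (h2c _ m1 _ m2).trans (mul_le_mul_of_nonneg_left n0 h2a)
  · refine fin _ C3 h3a (by linarith) ?_
    have h5 := h3c _ m1 _ m2
    rw [hF3] at h5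
    exact h5.trans (mul_le_mul_of_nonneg_left n0 h3a)
  · refine fin _ (C4 * M1 + C4) (by linarith) (by linarith) ?_
    have e1 : ∀ H : V d → V d →L[ℝ] V d, (fun y => dens H y • IG H y) = fun y => F3 (H y) := by
      intro H
      funext y
      rw [hF3]
      rfl
    have e2 : ∀ H : V d → V d →L[ℝ] V d, H x ∈ AHLD_K d M → DifferentiableAt ℝ H x →
        fderiv ℝ (fun y => F3 (H y)) x = (fderiv ℝ F3 (H x)).comp (fderiv ℝ H x) := by
      intro H hH hd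
      exact fderiv_comp x ((h3 _ hH).differentiableAt (by norm_num)) hd
    rw [e1, e1, e2 G m1 dif, e2 G' m2 dif']
    have e3 : (fderiv ℝ F3 (G x)).comp (fderiv ℝ G x) - (fderiv ℝ F3 (G' x)).comp (fderiv ℝ G' x) =
        (fderiv ℝ F3 (G x) - fderiv ℝ F3 (G' x)).comp (fderiv ℝ G x) + (fderiv ℝ F3 (G' x)).comp (fderiv ℝ G x - fderiv ℝ G' x) := by
      rw [ContinuousLinearMap.sub_comp, ContinuousLinearMap.comp_sub]
      abel
    rw [e3]
    have e4 : ‖(fderiv ℝ F3 (G x) - fderiv ℝ F3 (G' x)).comp (fderiv ℝ G x)‖ ≤ (C4 * (D * R ^ (-LX d))) * M1 :=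
      (ContinuousLinearMap.opNorm_comp_le _ _).trans (mul_le_mul ((h4c _ m1 _ m2).trans (mul_le_mul_of_nonneg_left n0 h4a)) bG
        (norm_nonneg _) (by positivity))
    have e5 : ‖(fderiv ℝ F3 (G' x)).comp (fderiv ℝ G x - fderiv ℝ G' x)‖ ≤ C4 * (D * R ^ (-LX d)) :=
      (ContinuousLinearMap.opNorm_comp_le _ _).trans (mul_le_mul (h4b _ m2) n1 (norm_nonneg _) h4a)
    have e6 : (C4 * (D * R ^ (-LX d))) * M1 + C4 * (D * R ^ (-LX d)) = (C4 * M1 + C4) * (D * R ^ (-LX d)) := by ring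
    rw [← e6]
    exact (norm_add_le ((fderiv ℝ F3 (G x) - fderiv ℝ F3 (G' x)).comp (fderiv ℝ G x))
      ((fderiv ℝ F3 (G' x)).comp (fderiv ℝ G x - fderiv ℝ G' x))).trans (add_le_add e4 e5)

end

end Pool.Agent.VDI
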